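import Mathlib
import Pool.Agent.Y263.LF.Char

/-!
Characters as limits of evaluations: version for one character.
-/

set_option autoImplicit false
set_option linter.unusedSectionVars false

open Filter Topology

namespace Pool.Agent.Q171.Cor

open Pool.Agent.Y263.LF (basic_fin)

variable {A : Type} [NormedCommRing A] [NormedAlgebra ℂ A] [CompleteSpace A] {S : Type}

/-- If a character `φ` cannot be separated from the evaluations by finitely many elements of `R`
and `G`, then it is a limit of evaluations on the closed algebra generated by `R` and `G`. -/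
theorem char_one (ev : S → A →ₐ[ℂ] ℂ) (hev : ∀ z a, ‖ev z a‖ ≤ ‖a‖) (R : Set A) (G : A)
    (φ : WeakDual.characterSpace ℂ A)
    (T : ∀ (t : Finset A), (∀ h ∈ t, h ∈ R) → ∀ δ : ℝ, 0 < δ →
      ∃ z, ∑ h ∈ t, ‖ev z h - φ h‖ + ‖ev z G - φ G‖ < δ) :
    ∃ ℱ : Filter S, ℱ.NeBot ∧ ∀ a ∈ (Algebra.adjoin ℂ (insert G R)).topologicalClosure,
      Tendsto (fun z => ev z a) ℱ (𝓝 (φ a)) := by
  classical
  -- the filter
  set ℱ : Filter S := ⨅ h : ↥(insert G R), comap (fun z => ev z h) (𝓝 (φ (h : A))) with hℱ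
  have hne : ℱ.NeBot := by
    rw [neBot_iff]
    intro hbot
    have h0 : (∅ : Set S) ∈ ℱ := by rw [hbot]; exact mem_bot
    rw [hℱ, mem_iInf_finite] at h0
    obtain ⟨t, ht⟩ := h0
    obtain ⟨η, hη, hη2⟩ := basic_fin ev (fun h : ↥(insert G R) => (h : A))
      (fun h => φ (h : A)) t ∅ ht
    set t' : Finset A := (t.image Subtype.val).filter (fun h => h ∈ R) with ht'
    obtain ⟨z, hz⟩ := T t' (fun h hh => (Finset.mem_filter.1 hh).2) η hη
    have h1 := hη2 z (fun h hh => by
      have hnn : 0 ≤ ∑ h ∈ t', ‖ev z h - φ h‖ := Finset.sum_nonneg (fun _ _ => norm_nonneg _)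
      rcases h.2 with hG | hR
      · rw [hG]
        linarith
      · have h1 : (h : A) ∈ t' :=
          Finset.mem_filter.2 ⟨Finset.mem_image.2 ⟨h, hh, rfl⟩, hR⟩
        have h2 := Finset.single_le_sum (f := fun h => ‖ev z h - φ h‖)
          (fun _ _ => norm_nonneg _) h1
        have h3 := norm_nonneg (ev z G - φ G)
        linarith)
    exact h1
  -- the subalgebra of elements whose values converge to the character
  set Cv : Subalgebra ℂ A :=
    { carrier := {a | Tendsto (fun z => ev z a) ℱ (𝓝 (φ a))}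
      mul_mem' := by
        intro a b ha hb
        have := Tendsto.mul ha hb
        simpa [map_mul] using this
      add_mem' := by
        intro a b ha hb
        have := Tendsto.add ha hb
        simpa [map_add] using this
      algebraMap_mem' := by
        intro c
        have h2 : φ (algebraMap ℂ A c) = c := by
          have := AlgHomClass.commutes φ c
          simpa using this
        simp only [Set.mem_ofPred_eq, AlgHom.commutes, h2]
        exact tendsto_const_nhds } with hCv
  have hsub : Algebra.adjoin ℂ (insert G R) ≤ Cv := by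
    refine Algebra.adjoin_le ?_
    intro h hh
    change Tendsto (fun z => ev z h) ℱ (𝓝 (φ h))
    have h1 : ℱ ≤ comap (fun z => ev z h) (𝓝 (φ h)) := by
      rw [hℱ]
      exact iInf_le (fun h : ↥(insert G R) => comap (fun z => ev z (h : A)) (𝓝 (φ (h : A))))
        ⟨h, hh⟩
    exact tendsto_comap.mono_left h1
  have hφn : ∀ a : A, ‖φ a‖ ≤ ‖a‖ * ‖(1 : A)‖ := by
    intro a
    have := AlgHom.norm_apply_le_self_mul_norm_one (WeakDual.CharacterSpace.toAlgHom φ) a
    exact this
  have hcl : ∀ a ∈ (Algebra.adjoin ℂ (insert G R)).topologicalClosure,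
      Tendsto (fun z => ev z a) ℱ (𝓝 (φ a)) := by
    intro a ha
    rw [Metric.tendsto_nhds]
    intro η hη
    have h0 : (0 : ℝ) < η / (2 * (1 + ‖(1 : A)‖)) := by positivity
    have ha' : a ∈ closure ((Algebra.adjoin ℂ (insert G R) : Subalgebra ℂ A) : Set A) := ha
    obtain ⟨b, hb, hab⟩ := Metric.mem_closure_iff.1 ha' _ h0
    have h1 : Tendsto (fun z => ev z b) ℱ (𝓝 (φ b)) := hsub hb
    rw [Metric.tendsto_nhds] at h1
    filter_upwards [h1 (η / 2) (by positivity)] with z hz
    rw [dist_eq_norm] at hab hz ⊢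
    have e1 : ev z a - φ a = ev z (a - b) + (ev z b - φ b) - φ (a - b) := by
      rw [map_sub, map_sub]
      ring
    rw [e1]
    have h2 := hev z (a - b)
    have h3 := hφn (a - b)
    have h4 : ‖a - b‖ * (1 + ‖(1 : A)‖) < η / 2 := by
      have h5 : (0 : ℝ) < 1 + ‖(1 : A)‖ := by positivity
      calc ‖a - b‖ * (1 + ‖(1 : A)‖) < η / (2 * (1 + ‖(1 : A)‖)) * (1 + ‖(1 : A)‖) := by gcongr
        _ = η / 2 := by field_simp
    calc ‖ev z (a - b) + (ev z b - φ b) - φ (a - b)‖
        ≤ ‖ev z (a - b) + (ev z b - φ b)‖ + ‖φ (a - b)‖ := norm_sub_le _ _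
      _ ≤ ‖ev z (a - b)‖ + ‖ev z b - φ b‖ + ‖φ (a - b)‖ := by gcongr; exact norm_add_le _ _
      _ < η := by nlinarith
  exact ⟨ℱ, hne, hcl⟩

end Pool.Agent.Q171.Cor
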