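import Mathlib
import Pool.Agent.W732.Cor.Stm2
import Pool.Agent.Y263.LF.Hinf
import Pool.Agent.Q171.Cor.Char

/-!
The local corona theorem for scaled continuous functions at each boundary point, and one arbitrary
function at each boundary point.
-/

set_option autoImplicit false
set_option linter.unusedSectionVars false

open Metric Set Filter Topology Complex

namespace Pool.Agent.Q171.Cor

open Pool.Agent.W732.Cor (V mv SC S_fin)
open Pool.Agent.Y263.LF (Hb evH evH_apply evH_le mkH mkH_apply Hb_ext exists_char)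

variable {m : ℕ}

/-- bounded holomorphic functions on the ball -/
def Hinf (f : V m → ℂ) : Prop :=
  DifferentiableOn ℂ f (ball 0 1) ∧ ∃ M : ℝ, ∀ z ∈ ball (0 : V m) 1, ‖f z‖ ≤ M

/-- asymptotic at `p` to a scaled continuous function -/
def ASC (p : V m) (f : V m → ℂ) : Prop :=
  ∃ h : V m → ℂ, Hinf h ∧ SC p h ∧ Tendsto (fun z => f z - h z) (𝓝[ball 0 1] p) (𝓝 0)

/-- uniform limits on the ball of polynomials in the functions of `R` -/
def ClosedAlg (R : Set (V m → ℂ)) : Set (V m → ℂ) :=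
  {f | Hinf f ∧ ∀ ε : ℝ, 0 < ε → ∃ g ∈ Algebra.adjoin ℂ R, ∀ z ∈ ball (0 : V m) 1, ‖f z - g z‖ ≤ ε}

theorem Hinf.const (c : ℂ) : Hinf (fun _ : V m => c) :=
  ⟨differentiableOn_const _, ‖c‖, fun _ _ => le_rfl⟩

theorem Hinf.sub {f g : V m → ℂ} (hf : Hinf f) (hg : Hinf g) : Hinf (fun z => f z - g z) := by
  obtain ⟨h1, M, hM⟩ := hf
  obtain ⟨h2, M', hM'⟩ := hg
  exact ⟨h1.fun_sub h2, M + M', fun z hz => (norm_sub_le _ _).trans
    (add_le_add (hM z hz) (hM' z hz))⟩

theorem Hinf.add {f g : V m → ℂ} (hf : Hinf f) (hg : Hinf g) : Hinf (fun z => f z + g z) := by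
  obtain ⟨h1, M, hM⟩ := hf
  obtain ⟨h2, M', hM'⟩ := hg
  exact ⟨h1.fun_add h2, M + M', fun z hz => (norm_add_le _ _).trans
    (add_le_add (hM z hz) (hM' z hz))⟩

theorem Hinf.mul {f g : V m → ℂ} (hf : Hinf f) (hg : Hinf g) : Hinf (fun z => f z * g z) := by
  obtain ⟨h1, M, hM⟩ := hf
  obtain ⟨h2, M', hM'⟩ := hg
  refine ⟨h1.fun_mul h2, M * M', fun z hz => ?_⟩
  rw [norm_mul]
  exact mul_le_mul (hM z hz) (hM' z hz) (norm_nonneg _) ((norm_nonneg _).trans (hM z hz))

theorem Hinf.coord (i : Fin m) : Hinf (fun z : V m => z i) := by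
  refine ⟨(EuclideanSpace.proj (𝕜 := ℂ) i : V m →L[ℂ] ℂ).differentiable.differentiableOn, 1,
    fun z hz => ?_⟩
  exact (PiLp.norm_apply_le z i).trans (mem_ball_zero_iff.1 hz).le

theorem SC_const (p : V m) (c : ℂ) : SC p (fun _ => c) := by
  intro q _ _ ε hε
  exact ⟨1, one_pos, fun a _ z _ w _ _ _ => by rw [sub_self, norm_zero]; exact hε.le⟩

theorem ASC.sub_const {p : V m} {f : V m → ℂ} (h : ASC p f) (c : ℂ) :
    ASC p (fun z => f z - c) := by
  obtain ⟨h, h1, h2, h3⟩ := h
  refine ⟨fun z => h z - c, h1.sub (Hinf.const c), ?_, ?_⟩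
  · intro q hq hpq ε hε
    obtain ⟨r, hr, h4⟩ := h2 q hq hpq ε hε
    refine ⟨r, hr, fun a ha z hz w hw hzq hwq => ?_⟩
    have h5 := h4 a ha z hz w hw hzq hwq
    rwa [sub_sub_sub_cancel_right]
  · refine h3.congr (fun z => ?_)
    ring

theorem ASC.of_tendsto {p : V m} {f : V m → ℂ} {c : ℂ} (h : Tendsto f (𝓝[ball 0 1] p) (𝓝 c)) :
    ASC p f :=
  ⟨fun _ => c, Hinf.const c, SC_const p c, by simpa using h.sub_const c⟩

theorem coord_tendsto (p : V m) (i : Fin m) (c : ℂ) :
    Tendsto (fun z : V m => z i - c) (𝓝[ball 0 1] p) (𝓝 (p i - c)) := by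
  have h : Continuous (fun z : V m => z i - c) :=
    (EuclideanSpace.proj (𝕜 := ℂ) i : V m →L[ℂ] ℂ).continuous.sub continuous_const
  exact (h.tendsto p).mono_left nhdsWithin_le_nhds

/-- the local theorem `S_fin` for arbitrary index types -/
theorem fin_type (hfin : S_fin) {ι : Type} [Fintype ι] (f : ι → V m → ℂ)
    (hf : ∀ j, Hinf (f j)) (h0 : ∀ z ∈ ball (0 : V m) 1, ∃ j, f j z ≠ 0)
    (hp : ∀ p : V m, ‖p‖ = 1 → ∃ (k : ι) (S : Finset ι) (c : ℝ), 0 < c ∧
      (∀ᶠ z in 𝓝[ball 0 1] p, c ≤ ‖f k z‖ + ∑ j ∈ S, ‖f j z‖) ∧ ∀ j ∈ S, ASC p (f j)) :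
    ∃ g : ι → V m → ℂ, (∀ j, Hinf (g j)) ∧ ∀ z ∈ ball (0 : V m) 1, ∑ j, f j z * g j z = 1 := by
  classical
  set e := Fintype.equivFin ι with he
  obtain ⟨g, h1, ⟨C, h2⟩, h3⟩ := hfin m (Fintype.card ι) (fun j => f (e.symm j))
    (fun j => (hf _).1) (fun j => (hf _).2)
    (fun z hz => by
      obtain ⟨j, hj⟩ := h0 z hz
      exact ⟨e j, by simpa using hj⟩)
    (fun p hpn => by
      obtain ⟨k, S, c, hc, h1, h2⟩ := hp p hpn
      refine ⟨e k, S.map e.toEmbedding, c, hc, ?_, ?_⟩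
      · filter_upwards [h1] with z hz
        simpa [Finset.sum_map] using hz
      · intro j hj
        obtain ⟨i, hi, rfl⟩ := Finset.mem_map.1 hj
        obtain ⟨h, h3, h4, h5⟩ := h2 i hi
        refine ⟨h, h3.1, h3.2, h4, ?_⟩
        simpa using h5)
  refine ⟨fun j => g (e j), fun j => ⟨h1 _, C, h2 _⟩, fun z hz => ?_⟩
  rw [← h3 z hz, ← Equiv.sum_comp e]
  simp

/-- an element of the Banach algebra -/
noncomputable def toH (f : V m → ℂ) (hf : Hinf f) : Hb (V m) :=
  mkH f hf.1 (Classical.choose hf.2) (Classical.choose_spec hf.2)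

theorem ev_toH (f : V m → ℂ) (hf : Hinf f) (z : ball (0 : V m) 1) : evH z (toH f hf) = f z := rfl

theorem toH_eq {f : V m → ℂ} {hf : Hinf f} {a : Hb (V m)} (h : ∀ z, evH z a = f z) :
    toH f hf = a := Hb_ext (fun z => (h z).symm)

theorem φ_alg (φ : WeakDual.characterSpace ℂ (Hb (V m))) (c : ℂ) :
    φ (algebraMap ℂ (Hb (V m)) c) = c := by
  have := AlgHomClass.commutes φ c
  simpa using this

theorem φ_sub (φ : WeakDual.characterSpace ℂ (Hb (V m))) (f : V m → ℂ) (hf : Hinf f) (c : ℂ) :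
    φ (toH (fun z => f z - c) (hf.sub (Hinf.const c))) = φ (toH f hf) - c := by
  have h1 : toH (fun z => f z - c) (hf.sub (Hinf.const c)) =
      toH f hf - algebraMap ℂ (Hb (V m)) c := by
    refine toH_eq (fun z => ?_)
    rw [map_sub, AlgHom.commutes]
    rfl
  rw [h1, map_sub, φ_alg]

/-- the values of a character cannot be separated from the values at the points of the ball -/
theorem key (hfin : S_fin) (φ : WeakDual.characterSpace ℂ (Hb (V m))) (p : V m)
    (hp : ∀ i, φ (toH (fun z => z i) (Hinf.coord i)) = p i) {ι : Type} [Fintype ι]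
    (h : ι → V m → ℂ) (hh : ∀ i, Hinf (h i)) (hs : ‖p‖ = 1 → ∀ i, ASC p (h i))
    (G : V m → ℂ) (hG : Hinf G) (δ : ℝ) (hδ : 0 < δ) :
    ∃ z ∈ ball (0 : V m) 1, ∑ i, ‖h i z - φ (toH (h i) (hh i))‖ + ‖G z - φ (toH G hG)‖ +
      ∑ i, ‖z i - p i‖ < δ := by
  classical
  by_contra hcon
  push Not at hcon
  set D : Option (ι ⊕ Fin m) → V m → ℂ := fun j => match j with
    | none => fun z => G z - φ (toH G hG)
    | some (Sum.inl i) => fun z => h i z - φ (toH (h i) (hh i))
    | some (Sum.inr i) => fun z => z i - p i with hD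
  have hDH : ∀ j, Hinf (D j) := by
    intro j
    match j with
    | none => exact hG.sub (Hinf.const _)
    | some (Sum.inl i) => exact (hh i).sub (Hinf.const _)
    | some (Sum.inr i) => exact (Hinf.coord i).sub (Hinf.const _)
  have hφD : ∀ j, φ (toH (D j) (hDH j)) = 0 := by
    intro j
    match j with
    | none => exact (φ_sub φ G hG _).trans (sub_self _)
    | some (Sum.inl i) => exact (φ_sub φ (h i) (hh i) _).trans (sub_self _)
    | some (Sum.inr i) =>
      refine (φ_sub φ (fun z => z i) (Hinf.coord i) (p i)).trans ?_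
      rw [hp i, sub_self]
  have hsum : ∀ z, ∑ j ∈ (Finset.univ : Finset (ι ⊕ Fin m)).map Function.Embedding.some,
      ‖D j z‖ = ∑ i, ‖h i z - φ (toH (h i) (hh i))‖ + ∑ i, ‖z i - p i‖ := by
    intro z
    rw [Finset.sum_map, Fintype.sum_sum_type]
    rfl
  obtain ⟨g, h1, h2⟩ := fin_type hfin D hDH (by
    intro z hz
    by_contra hno
    push Not at hno
    have h3 := hcon z hz
    have h4 : G z - φ (toH G hG) = 0 := hno none
    have h5 := hsum z
    simp only [hno, norm_zero, Finset.sum_const_zero] at h5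
    rw [h4, norm_zero] at h3
    linarith) (by
    intro p' hp'
    by_cases hpp : p' = p
    · refine ⟨none, (Finset.univ : Finset (ι ⊕ Fin m)).map Function.Embedding.some, δ, hδ, ?_, ?_⟩
      · filter_upwards [self_mem_nhdsWithin] with z hz
        rw [hsum z]
        have h3 := hcon z hz
        have h4 : ‖D none z‖ = ‖G z - φ (toH G hG)‖ := rfl
        rw [h4]
        linarith
      · intro j hj
        obtain ⟨i, -, rfl⟩ := Finset.mem_map.1 hj
        rw [hpp] at hp' ⊢
        match i with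
        | Sum.inl i => exact (hs hp' i).sub_const _
        | Sum.inr i => exact ASC.of_tendsto (coord_tendsto p i (p i))
    · obtain ⟨i, hi⟩ : ∃ i, p' i ≠ p i := by
        by_contra hno
        push Not at hno
        exact hpp (PiLp.ext hno)
      have hpos : 0 < ‖p' i - p i‖ := norm_pos_iff.2 (sub_ne_zero.2 hi)
      refine ⟨none, {some (Sum.inr i)}, ‖p' i - p i‖ / 2, by positivity, ?_, ?_⟩
      · have h3 := (coord_tendsto p' i (p i)).norm
        filter_upwards [h3.eventually (lt_mem_nhds (show ‖p' i - p i‖ / 2 < ‖p' i - p i‖ by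
          linarith))] with z hz
        rw [Finset.sum_singleton]
        have h4 : ‖D (some (Sum.inr i)) z‖ = ‖z i - p i‖ := rfl
        rw [h4]
        have h5 := norm_nonneg (D none z)
        linarith
      · intro j hj
        rw [Finset.mem_singleton] at hj
        subst hj
        exact ASC.of_tendsto (coord_tendsto p' i (p i)))
  have h3 : ∑ j, toH (D j) (hDH j) * toH (g j) (h1 j) = 1 := by
    refine Hb_ext (fun z => ?_)
    rw [map_sum, map_one]
    simp only [map_mul, ev_toH]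
    exact h2 z z.2
  have h4 := congrArg (fun a => φ a) h3
  simp only [map_sum, map_mul, hφD, zero_mul, Finset.sum_const_zero, map_one] at h4
  exact zero_ne_one h4

/-- membership in the closed algebra -/
theorem closed_mem {R : Set (V m → ℂ)} (hR : ∀ h ∈ R, Hinf h) {f : V m → ℂ}
    (hf : f ∈ ClosedAlg R) :
    toH f hf.1 ∈ (Algebra.adjoin ℂ {a : Hb (V m) | ∃ h ∈ R, ∀ z, evH z a = h z}).topologicalClosure := by
  have hpoly : ∀ g ∈ Algebra.adjoin ℂ R, ∃ a ∈ Algebra.adjoin ℂ
      {a : Hb (V m) | ∃ h ∈ R, ∀ z, evH z a = h z}, ∀ z, evH z a = g z := by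
    intro g hg
    induction hg using Algebra.adjoin_induction with
    | mem g hg =>
      exact ⟨toH g (hR g hg), Algebra.subset_adjoin ⟨g, hg, fun z => rfl⟩, fun z => rfl⟩
    | algebraMap c =>
      exact ⟨algebraMap ℂ _ c, Subalgebra.algebraMap_mem _ c, fun z => by
        rw [AlgHom.commutes]; rfl⟩
    | add g h _ _ hg hh =>
      obtain ⟨a, ha, ha2⟩ := hg
      obtain ⟨b, hb, hb2⟩ := hh
      exact ⟨a + b, Subalgebra.add_mem _ ha hb, fun z => by rw [map_add, ha2, hb2]; rfl⟩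
    | mul g h _ _ hg hh =>
      obtain ⟨a, ha, ha2⟩ := hg
      obtain ⟨b, hb, hb2⟩ := hh
      exact ⟨a * b, Subalgebra.mul_mem _ ha hb, fun z => by rw [map_mul, ha2, hb2]; rfl⟩
  change toH f hf.1 ∈ closure (_ : Set (Hb (V m)))
  rw [Metric.mem_closure_iff]
  intro ε hε
  obtain ⟨g, hg, hfg⟩ := hf.2 (ε / 2) (by positivity)
  obtain ⟨a, ha, ha2⟩ := hpoly g hg
  refine ⟨a, ha, ?_⟩
  have h1 : ‖toH f hf.1 - a‖ ≤ ε / 2 := by
    have h2 : ‖((toH f hf.1 - a : Hb (V m)) : BoundedContinuousFunction (ball (0 : V m) 1) ℂ)‖ ≤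
        ε / 2 := by
      refine (BoundedContinuousFunction.norm_le (by positivity)).2 (fun z => ?_)
      have h3 : ((toH f hf.1 - a : Hb (V m)) : BoundedContinuousFunction (ball (0 : V m) 1) ℂ) z =
          f z - g z := by
        have h4 : evH z (toH f hf.1 - a) = f z - g z := by rw [map_sub, ha2, ev_toH]
        exact h4
      rw [h3]
      exact hfg z z.2
    exact h2
  rw [dist_eq_norm]
  linarith

/-- **Local corona theorem**: at each boundary point `p`, the relevant data are asymptotic to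
elements of the closed algebra generated by one arbitrary function and the functions which are
scaled continuous at `p`. -/
theorem local_sc (hfin : S_fin) {N : ℕ} (f : Fin N → V m → ℂ) (hf : ∀ j, Hinf (f j))
    (h0 : ∀ z ∈ ball (0 : V m) 1, ∃ j, f j z ≠ 0)
    (hloc : ∀ p : V m, ‖p‖ = 1 → ∃ (G : V m → ℂ) (S : Finset (Fin N)) (a : Fin N → V m → ℂ)
      (c : ℝ), Hinf G ∧ 0 < c ∧ (∀ᶠ z in 𝓝[ball 0 1] p, c ≤ ∑ j ∈ S, ‖f j z‖) ∧
      ∀ j ∈ S, a j ∈ ClosedAlg ({G} ∪ {h | Hinf h ∧ ASC p h}) ∧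
        Tendsto (fun z => f j z - a j z) (𝓝[ball 0 1] p) (𝓝 0)) :
    ∃ g : Fin N → V m → ℂ, (∀ j, Hinf (g j)) ∧
      ∀ z ∈ ball (0 : V m) 1, ∑ j, f j z * g j z = 1 := by
  classical
  by_contra hno
  obtain ⟨φ, hφ⟩ := exists_char (fun j => toH (f j) (hf j)) (by
    rintro ⟨g, hg⟩
    apply hno
    choose g' hg' hg'2 using fun j => (g j).2
    refine ⟨g', fun j => ⟨hg' j, ‖g j‖, fun z hz => ?_⟩, fun z hz => ?_⟩
    · have h1 := evH_le ⟨z, hz⟩ (g j)
      have h2 : evH ⟨z, hz⟩ (g j) = g' j z := hg'2 j ⟨z, hz⟩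
      rwa [h2] at h1
    · have h1 := congrArg (fun a => evH ⟨z, hz⟩ a) hg
      simp only [map_sum, map_mul, map_one] at h1
      rw [← h1]
      refine Finset.sum_congr rfl (fun j _ => ?_)
      have h2 : evH ⟨z, hz⟩ (g j) = g' j z := hg'2 j ⟨z, hz⟩
      rw [h2]
      rfl)
  set p : V m := WithLp.toLp 2 (fun i => φ (toH (fun z => z i) (Hinf.coord i))) with hpdef
  have hp : ∀ i, φ (toH (fun z => z i) (Hinf.coord i)) = p i := fun i => rfl
  -- the character lies over `p`
  have hclose : ∀ (G : V m → ℂ) (hG : Hinf G) (c : ℂ), Tendsto G (𝓝[ball 0 1] p) (𝓝 c) →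
      φ (toH G hG) = c := by
    intro G hG c hlim
    by_contra hne
    have hpos : 0 < ‖c - φ (toH G hG)‖ := norm_pos_iff.2 (sub_ne_zero.2 (Ne.symm hne))
    have h1 := ((hlim.sub_const (φ (toH G hG))).norm).eventually
      (lt_mem_nhds (show ‖c - φ (toH G hG)‖ / 2 < ‖c - φ (toH G hG)‖ by linarith))
    rw [eventually_nhdsWithin_iff, Metric.eventually_nhds_iff] at h1
    obtain ⟨r, hr, h2⟩ := h1
    obtain ⟨z, hz, h3⟩ := key hfin φ p hp (ι := Empty) (fun i => i.elim) (fun i => i.elim)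
      (fun _ i => i.elim) G hG (min r (‖c - φ (toH G hG)‖ / 2)) (by positivity)
    simp only [Finset.univ_eq_empty, Finset.sum_empty, zero_add] at h3
    have h4 : dist z p ≤ ∑ i, ‖z i - p i‖ := by
      rw [dist_eq_norm]
      have h5 : z - p = ∑ i, (z i - p i) • EuclideanSpace.single i (1 : ℂ) := by
        ext j
        simp [Pi.single_apply]
      calc ‖z - p‖ = ‖∑ i, (z i - p i) • EuclideanSpace.single i (1 : ℂ)‖ := by rw [← h5]
        _ ≤ ∑ i, ‖(z i - p i) • EuclideanSpace.single i (1 : ℂ)‖ := norm_sum_le _ _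
        _ = ∑ i, ‖z i - p i‖ := by
          refine Finset.sum_congr rfl (fun i _ => ?_)
          rw [norm_smul]
          simp
    have h5 : ‖c - φ (toH G hG)‖ / 2 < ‖G z - φ (toH G hG)‖ := by
      refine h2 ?_ hz
      have := norm_nonneg (G z - φ (toH G hG))
      have := min_le_left r (‖c - φ (toH G hG)‖ / 2)
      linarith
    have h6 : 0 ≤ ∑ i, ‖z i - p i‖ := Finset.sum_nonneg (fun _ _ => norm_nonneg _)
    have h7 := min_le_right r (‖c - φ (toH G hG)‖ / 2)
    linarith
  -- position of `p`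
  have hp1 : ‖p‖ ≤ 1 := by
    by_contra hlt
    push Not at hlt
    have hbot : 𝓝[ball 0 1] p = ⊥ := by
      rw [← notMem_closure_iff_nhdsWithin_eq_bot]
      intro h
      have := closure_ball_subset_closedBall h
      rw [mem_closedBall_zero_iff] at this
      linarith
    have h1 := hclose (fun _ => 0) (Hinf.const 0) 0 (by rw [hbot]; exact tendsto_bot)
    have h2 := hclose (fun _ => 0) (Hinf.const 0) 1 (by rw [hbot]; exact tendsto_bot)
    rw [h1] at h2
    exact zero_ne_one h2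
  rcases lt_or_eq_of_le hp1 with hlt | heq
  · -- interior point
    have hpb : p ∈ ball (0 : V m) 1 := mem_ball_zero_iff.2 hlt
    obtain ⟨j, hj⟩ := h0 p hpb
    apply hj
    have h1 := hclose (f j) (hf j) (f j p)
      (((hf j).1.differentiableAt (isOpen_ball.mem_nhds hpb)).continuousAt.tendsto.mono_left
        nhdsWithin_le_nhds)
    rw [← h1]
    exact hφ j
  · -- boundary point
    obtain ⟨G, S, a, c, hG, hc, hlow, hS⟩ := hloc p heq
    -- the values at the functions `a j`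
    have hφa : ∀ j (hj : j ∈ S), φ (toH (a j) (hS j hj).1.1) = 0 := by
      intro j hj
      have h1 := hclose (fun z => f j z - a j z) ((hf j).sub (hS j hj).1.1) 0 (hS j hj).2
      have h2 : toH (fun z => f j z - a j z) ((hf j).sub (hS j hj).1.1) =
          toH (f j) (hf j) - toH (a j) (hS j hj).1.1 :=
        toH_eq (fun z => by rw [map_sub]; rfl)
      rw [h2, map_sub, hφ j, zero_sub, neg_eq_zero] at h1
      exact h1
    -- the filter
    set R : Set (V m → ℂ) := {h | Hinf h ∧ ASC p h} with hR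
    have hlin : ∀ i : Fin m, (fun z : V m => z i) ∈ R := fun i =>
      ⟨Hinf.coord i, ASC.of_tendsto (by simpa using coord_tendsto p i 0)⟩
    obtain ⟨ℱ, hne, hℱ⟩ := char_one evH evH_le {a : Hb (V m) | ∃ h ∈ R, ∀ z, evH z a = h z}
      (toH G hG) φ (by
        intro t ht δ hδ
        choose! h hh1 hh2 using ht
        obtain ⟨z, hz, h3⟩ := key hfin φ p hp (ι := t) (fun i => h i) (fun i => (hh1 i i.2).1)
          (fun _ i => (hh1 i i.2).2) G hG δ hδ
        refine ⟨⟨z, hz⟩, ?_⟩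
        have h4 : (∑ b ∈ t, ‖evH ⟨z, hz⟩ b - φ b‖ : ℝ) =
            ∑ i : t, ‖h i z - φ (toH (h i) (hh1 i i.2).1)‖ := by
          rw [← Finset.sum_coe_sort t]
          refine Finset.sum_congr rfl (fun i _ => ?_)
          rw [hh2 i i.2 ⟨z, hz⟩]
          have h5 : toH (h i) (hh1 i i.2).1 = i.1 := toH_eq (fun z => hh2 i i.2 z)
          rw [h5]
        rw [h4, ev_toH]
        have h6 : 0 ≤ ∑ i, ‖z i - p i‖ := Finset.sum_nonneg (fun _ _ => norm_nonneg _)
        linarith)
    have hmem : ∀ b ∈ ClosedAlg ({G} ∪ R), ∀ hb : Hinf b,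
        Tendsto (fun z => evH z (toH b hb)) ℱ (𝓝 (φ (toH b hb))) := by
      intro b hb hb'
      refine hℱ _ ?_
      have h1 := closed_mem (R := {G} ∪ R) (by
        rintro h (h1 | h1)
        · rw [h1]; exact hG
        · exact h1.1) hb
      have h2 : (Algebra.adjoin ℂ {a : Hb (V m) | ∃ h ∈ ({G} ∪ R : Set (V m → ℂ)),
          ∀ z, evH z a = h z}) ≤ Algebra.adjoin ℂ (insert (toH G hG)
            {a : Hb (V m) | ∃ h ∈ R, ∀ z, evH z a = h z}) := by
        refine Algebra.adjoin_mono ?_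
        rintro u ⟨h, h3 | h3, h4⟩
        · left
          rw [h3] at h4
          exact (toH_eq h4).symm
        · right
          exact ⟨h, h3, h4⟩
      exact Subalgebra.topologicalClosure_mono h2 h1
    have hz : Tendsto (fun z : ball (0 : V m) 1 => (z : V m)) ℱ (𝓝 p) := by
      have h1 : Tendsto (fun z : ball (0 : V m) 1 => (fun i => (z : V m) i)) ℱ
          (𝓝 (fun i => p i)) := by
        rw [tendsto_pi_nhds]
        intro i
        have h2 := hmem (fun z => z i) ⟨Hinf.coord i, fun ε hε => ⟨fun z => z i,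
          Algebra.subset_adjoin (Or.inr (hlin i)), fun z _ => by
            rw [sub_self, norm_zero]; exact hε.le⟩⟩ (Hinf.coord i)
        rw [hp i] at h2
        exact h2
      have h2 := ((PiLp.continuous_toLp 2 (fun _ : Fin m => ℂ)).tendsto (fun i => p i)).comp h1
      exact h2
    have hcomap : ℱ.map (fun z : ball (0 : V m) 1 => (z : V m)) ≤ 𝓝[ball 0 1] p := by
      refine tendsto_nhdsWithin_iff.2 ⟨hz, Eventually.of_forall (fun z => z.2)⟩
    have h1 : ∀ j ∈ S, Tendsto (fun z : ball (0 : V m) 1 => ‖f j z‖) ℱ (𝓝 0) := by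
      intro j hj
      have h2 := hmem (a j) (hS j hj).1 (hS j hj).1.1
      rw [hφa j hj] at h2
      have h3 : Tendsto (fun z : ball (0 : V m) 1 => f j z - a j z) ℱ (𝓝 0) :=
        (hS j hj).2.comp hcomap
      have h4 := (h3.add h2).norm
      rw [add_zero, norm_zero] at h4
      refine h4.congr (fun z => ?_)
      rw [ev_toH, sub_add_cancel]
    have h2 : Tendsto (fun z : ball (0 : V m) 1 => ∑ j ∈ S, ‖f j z‖) ℱ
        (𝓝 (∑ j ∈ S, (0 : ℝ))) := tendsto_finsetSum _ h1
    rw [Finset.sum_const_zero] at h2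
    have h3 : ∀ᶠ z : ball (0 : V m) 1 in ℱ, c ≤ ∑ j ∈ S, ‖f j z‖ := hcomap hlow
    have h4 : c ≤ 0 := ge_of_tendsto h2 h3
    linarith

end Pool.Agent.Q171.Cor
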